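import Pool.Agent.Lib.MP_6359c9_pr.EndMain
import Pool.Agent.Lib.MP_6359c9_pr.Cont
import Pool.Agent.Lib.MP_6359c9_pr.Bridge
import Pool.Agent.Lib.MP_6359c9_pr.MomF
import Pool.Agent.Lib.MP_6359c9_pr.MomT
import Pool.Agent.Lib.MP_6359c9_pr.Khi
import Pool.Agent.Lib.MP_6359c9_pr.Tt
import Pool.Agent.Lib.MP_6359c9_pr.DirF
import Pool.Agent.Lib.MP_6359c9_pr.HMain
import Pool.Agent.Lib.MP_6359c9_pr.Mix
import Pool.Agent.Lib.MP_6359c9_pr.Null
import Pool.Agent.Lib.MP_6359c9_pr.Sd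

namespace Pool.Agent.Results.MP_6359c9_pr.GFF

open Filter Topology MeasureTheory ProbabilityTheory Pool.Agent.Lib.MP_6359c9_pr

/-- the fluctuations of the odd valued height function converge, jointly in law and with all
moments, to a constant multiple of the Gaussian free field with zero boundary values -/
theorem result : ∃ c : ℝ, 0 < c ∧
    ∀ (Ω : Set ℂ), IsOpen Ω → IsConnected Ω → Bornology.IsBounded Ω →
    ∀ (δ : ℕ → ℝ), (∀ n, 0 < δ n) → Tendsto δ atTop (𝓝 0) →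
    ∀ (Q : ∀ n, Dom (δ n)), Car (fun n => (Q n).D) Ω →
    ∀ (k : ℕ) (φ : Fin k → ℂ → ℝ), (∀ i, Test Ω (φ i)) →
      (∃ u : Fin k → ℂ → ℝ, ∀ i, Green Ω (φ i) (u i)) ∧
      ∀ u : Fin k → ℂ → ℝ, (∀ i, Green Ω (φ i) (u i)) →
        (Matrix.of fun i j => c ^ 2 * ∫ z in Ω, φ i z * u j z).PosSemidef ∧
        ∀ F : EuclideanSpace ℝ (Fin k) → ℝ, Continuous F →
          (∃ (C : ℝ) (p : ℕ), ∀ x, |F x| ≤ C * (1 + ‖x‖) ^ p) →
          Tendsto (fun n => mean (Q n).H fun h => F (WithLp.toLp 2 fun i => (Q n).pair (φ i) h))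
            atTop (𝓝 (∫ x, F x ∂multivariateGaussian 0
              (Matrix.of fun i j => c ^ 2 * ∫ z in Ω, φ i z * u j z))) :=
  final_of contSt bridgeSt (momF (momA khiSt ttSt) (momN khiSt ttSt))
    (sdF nullSt mixSt (momA khiSt ttSt) (momN khiSt ttSt) (momT khiSt ttSt oscSt))
    (dirF dir_main) greenSt gaussSt

end Pool.Agent.Results.MP_6359c9_pr.GFF
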