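import Pool.Agent.Lib.MP_6359c9_pr.SlFin
import Pool.Agent.Lib.MP_6359c9_pr.FjMain
import Pool.Agent.Lib.MP_6359c9_pr.ChD

namespace Pool.Agent.Results.MP_6359c9_pr.SLE

open Set Filter Topology Bornology Pool.Agent.Lib.MP_6359c9_pr

/-- the zero level line of the odd valued height function, mapped to the half plane and
parametrised by capacity, converges in law to chordal SLE4 -/
theorem result :
    ∀ (Ω : Set ℂ) (ψ : ℂ → ℂ), IsBounded Ω → DifferentiableOn ℂ ψ UH → BijOn ψ UH Ω →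
    ∀ (δ : ℕ → ℝ), (∀ n, 0 < δ n) → Tendsto δ atTop (𝓝 0) →
    ∀ (Q : ∀ n, Dom (δ n)) (ψn : ℕ → ℂ → ℂ), (∀ n, Unif (Q n).D (Q n).a (Q n).b (ψn n)) →
      TendstoLocallyUniformlyOn ψn ψ atTop UH →
      (∀ n, ∀ h ∈ (Q n).H, (Q n).b ∈ (Q n).line h ∧
        ∃! β, Param (ψn n) ((Q n).line h \ {(Q n).a, (Q n).b}) β) ∧
      (∃! μ, IsSLE4 μ) ∧
      ∀ μ, IsSLE4 μ → ∀ β : ℕ → (V → ℤ) → Crv,
        (∀ n, ∀ h ∈ (Q n).H, Param (ψn n) ((Q n).line h \ {(Q n).a, (Q n).b}) (β n h)) →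
        ∀ F : BoundedContinuousFunction Crv ℝ,
          Tendsto (fun n => mean (Q n).H fun h => F (β n h)) atTop (𝓝 (∫ γ, F γ ∂μ)) :=
  sle_of_fj (fjUse Fj.fjSt Fj.gateSt chartSt)

end Pool.Agent.Results.MP_6359c9_pr.SLE
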